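import Pool.Agent.Run7.h457.ES.Defs

/-!
# Curves with a uniformly ramified morphism to a curve of genus at most one: proofs
-/

set_option autoImplicit false

namespace Run7.h457.ES

open NumberField IsDedekindDomain Height

noncomputable section

/-! ## Cross ratios -/

section cross

variable {L : IntermediateField ℚ QBar} [NumberField L]

/-- The cross ratio. -/
def cross (a b c s : Fin 2 → L) : L := (det₂ a s * det₂ b c) / (det₂ c s * det₂ b a)

theorem det_mulVec {R : Type} [CommRing R] (A : Matrix (Fin 2) (Fin 2) R) (x y : Fin 2 → R) :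
    det₂ (A.mulVec x) (A.mulVec y) = A.det * det₂ x y := by
  simp only [det₂, Matrix.det_fin_two, Matrix.mulVec_fin_two, Matrix.cons_val_zero,
    Matrix.cons_val_one]
  ring

theorem det_self {R : Type} [CommRing R] (x : Fin 2 → R) : det₂ x x = 0 := by
  simp only [det₂]
  ring

theorem det_swap {R : Type} [CommRing R] (x y : Fin 2 → R) : det₂ x y = - det₂ y x := by
  simp only [det₂]
  ring

omit [NumberField L] in
theorem one_sub_cross {a b c s : Fin 2 → L} (h1 : det₂ c s ≠ 0) (h2 : det₂ b a ≠ 0) :
    1 - cross a b c s = -((det₂ a c * det₂ b s) / (det₂ c s * det₂ b a)) := by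
  have h : det₂ c s * det₂ b a ≠ 0 := mul_ne_zero h1 h2
  unfold cross
  rw [← neg_div, eq_div_iff h, sub_mul, div_mul_cancel₀ _ h]
  simp only [det₂]
  ring

/-- If all pairs of the four points are distinct modulo `v`, products of two determinants of
complementary pairs have the same absolute value. -/
theorem valuation_pairs (v : HeightOneSpectrum (𝓞 L)) {A : Matrix (Fin 2) (Fin 2) L}
    (hA : A.det ≠ 0) {a b c d : Fin 2 → L}
    (h1 : Apart v (A.mulVec a) (A.mulVec b)) (h2 : Apart v (A.mulVec c) (A.mulVec d))
    (h3 : Apart v (A.mulVec a) (A.mulVec c)) (h4 : Apart v (A.mulVec b) (A.mulVec d)) :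
    v.valuation L (det₂ a b * det₂ c d) = v.valuation L (det₂ a c * det₂ b d) := by
  have hδ : v.valuation L A.det ≠ 0 := by
    rw [Ne, Valuation.zero_iff]
    exact hA
  have key : v.valuation L A.det * v.valuation L A.det * v.valuation L (det₂ a b * det₂ c d) =
      v.valuation L A.det * v.valuation L A.det * v.valuation L (det₂ a c * det₂ b d) := by
    simp only [Apart, det_mulVec, map_mul] at h1 h2 h3 h4 ⊢
    calc _ = (v.valuation L A.det * v.valuation L (det₂ a b)) *
          (v.valuation L A.det * v.valuation L (det₂ c d)) := by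
            rw [mul_mul_mul_comm]
      _ = (size v (A.mulVec a) * size v (A.mulVec b)) *
          (size v (A.mulVec c) * size v (A.mulVec d)) := by rw [h1, h2]
      _ = (size v (A.mulVec a) * size v (A.mulVec c)) *
          (size v (A.mulVec b) * size v (A.mulVec d)) := by rw [mul_mul_mul_comm]
      _ = (v.valuation L A.det * v.valuation L (det₂ a c)) *
          (v.valuation L A.det * v.valuation L (det₂ b d)) := by rw [h3, h4]
      _ = _ := by rw [mul_mul_mul_comm]
  exact mul_left_cancel₀ (mul_ne_zero hδ hδ) key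

theorem apart_symm {v : HeightOneSpectrum (𝓞 L)} {x y : Fin 2 → L} (h : Apart v x y) :
    Apart v y x := by
  unfold Apart at h ⊢
  rw [det_swap, Valuation.map_neg, h, mul_comm]

end cross

/-! ## Normalization of the branch points -/

section normalize

variable {L : IntermediateField ℚ QBar} [NumberField L]

omit [NumberField L] in
theorem toBar_det (x y : Fin 2 → L) :
    det₂ (toBar x) (toBar y) = ((det₂ x y : L) : QBar) := by
  simp only [det₂, toBar]
  push_cast
  rfl

/-- The matrix of the automorphism of the projective line that maps `a`, `b`, `c` to `0`, `1`, `∞`. -/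
def normMat (a b c : Fin 2 → QBar) : Matrix (Fin 2) (Fin 2) QBar :=
  !![-(a 1) * det₂ b c, a 0 * det₂ b c; -(c 1) * det₂ b a, c 0 * det₂ b a]

theorem normMat_mulVec (a b c s : Fin 2 → QBar) :
    (normMat a b c).mulVec s = ![det₂ a s * det₂ b c, det₂ c s * det₂ b a] := by
  rw [Matrix.mulVec_fin_two]
  ext i
  fin_cases i
  · simp [normMat, det₂]
    ring
  · simp [normMat, det₂]
    ring

theorem normMat_det (a b c : Fin 2 → QBar) :
    (normMat a b c).det = det₂ b c * det₂ b a * det₂ a c := by
  rw [Matrix.det_fin_two]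
  simp [normMat, det₂]
  ring

theorem normalize (T : CurveTheory) {X : T.Curve} {d : ℕ} {S : Finset (Fin 2 → L)}
    (h3 : 3 ≤ S.card) (hS : ∀ x ∈ S, ∀ y ∈ S, x ≠ y → det₂ x y ≠ 0)
    (hX : T.Cover X d (toBar '' (S : Set (Fin 2 → L)))) (M : ℕ)
    (hv : ∀ v : HeightOneSpectrum (𝓞 L), Away M v → ∃ A : Matrix (Fin 2) (Fin 2) L, A.det ≠ 0 ∧
      ∀ x ∈ S, ∀ y ∈ S, x ≠ y → Apart v (A.mulVec x) (A.mulVec y)) :
    ∃ S' : Finset (Option L), S'.card ≤ S.card + 1 ∧
      T.Cover X d (homog '' (S' : Set (Option L))) ∧
      ∀ x : L, some x ∈ S' → x = 0 ∨ x = 1 ∨ (UnitAway M x ∧ UnitAway M (1 - x)) := by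
  classical
  obtain ⟨a, b, c, ha, hb, hc, hab, hac, hbc⟩ := Finset.two_lt_card_iff.1 (lt_of_lt_of_le (by norm_num) h3)
  have dab := hS a ha b hb hab
  have dba := hS b hb a ha hab.symm
  have dac := hS a ha c hc hac
  have dbc := hS b hb c hc hbc
  have dcb := hS c hc b hb hbc.symm
  refine ⟨insert none (S.image fun s => some (cross a b c s)), ?_, ?_, ?_⟩
  · exact (Finset.card_insert_le _ _).trans (Nat.add_le_add_right Finset.card_image_le 1)
  · refine T.cover_move X d _ _ (normMat (toBar a) (toBar b) (toBar c)) hX ?_ ?_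
    · rw [normMat_det, toBar_det, toBar_det, toBar_det]
      refine mul_ne_zero (mul_ne_zero ?_ ?_) ?_
      · exact_mod_cast dbc
      · exact_mod_cast dba
      · exact_mod_cast dac
    · rintro _ ⟨s, hs, rfl⟩
      rw [Finset.mem_coe] at hs
      rw [normMat_mulVec, toBar_det, toBar_det, toBar_det, toBar_det]
      by_cases hsc : s = c
      · subst hsc
        refine ⟨(((det₂ a s * det₂ b s : L) : QBar))⁻¹, ?_, none, ?_, ?_⟩
        · refine inv_ne_zero ?_
          exact_mod_cast mul_ne_zero dac dbc
        · simp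
        · have h : (((det₂ a s * det₂ b s : L) : QBar)) ≠ 0 := by
            exact_mod_cast mul_ne_zero dac dbc
          rw [det_self]
          ext i
          fin_cases i
          · simp only [homog]
            push_cast at h ⊢
            simp only [Matrix.cons_val_zero, Pi.smul_apply, smul_eq_mul]
            rw [inv_mul_cancel₀ h]
          · simp [homog]
      · have dcs := hS c hc s hs (Ne.symm hsc)
        have h : (((det₂ c s * det₂ b a : L) : QBar)) ≠ 0 := by
          exact_mod_cast mul_ne_zero dcs dba
        refine ⟨(((det₂ c s * det₂ b a : L) : QBar))⁻¹, inv_ne_zero h, some (cross a b c s), ?_, ?_⟩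
        · simp only [Finset.coe_insert, Finset.coe_image, Set.mem_insert_iff, reduceCtorEq,
            false_or]
          exact ⟨s, hs, rfl⟩
        · ext i
          fin_cases i
          · simp only [homog, cross]
            push_cast at h ⊢
            simp only [Matrix.cons_val_zero, Pi.smul_apply, smul_eq_mul]
            rw [div_eq_inv_mul]
          · simp only [homog]
            push_cast at h ⊢
            simp only [Matrix.cons_val_one, Matrix.cons_val_fin_one, Pi.smul_apply, smul_eq_mul]
            rw [inv_mul_cancel₀ h]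
  · intro x hx
    simp only [Finset.mem_insert, reduceCtorEq, Finset.mem_image, Option.some.injEq,
      false_or] at hx
    obtain ⟨s, hs, rfl⟩ := hx
    by_cases hsa : s = a
    · left
      simp [cross, hsa, det_self]
    by_cases hsc : s = c
    · left
      simp [cross, hsc, det_self]
    by_cases hsb : s = b
    · right
      left
      rw [hsb, cross, det_swap a b, det_swap c b]
      field_simp
    right
    right
    have dcs := hS c hc s hs (Ne.symm hsc)
    have das := hS a ha s hs (Ne.symm hsa)
    have dbs := hS b hb s hs (Ne.symm hsb)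
    have hne : det₂ c s * det₂ b a ≠ 0 := mul_ne_zero dcs dba
    refine ⟨fun v hMv => ?_, fun v hMv => ?_⟩
    · obtain ⟨A, hA, h⟩ := hv v hMv
      have h0 : v.valuation L (det₂ c s * det₂ b a) ≠ 0 := by
        rw [Ne, Valuation.zero_iff]
        exact hne
      rw [cross, map_div₀, div_eq_one_iff_eq h0]
      have := valuation_pairs v hA (h a ha s hs (Ne.symm hsa)) (h b hb c hc hbc)
        (h a ha b hb hab) (h s hs c hc hsc)
      rw [this, det_swap s c, det_swap a b, neg_mul_neg, mul_comm]
    · obtain ⟨A, hA, h⟩ := hv v hMv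
      have h0 : v.valuation L (det₂ c s * det₂ b a) ≠ 0 := by
        rw [Ne, Valuation.zero_iff]
        exact hne
      rw [one_sub_cross dcs dba, Valuation.map_neg, map_div₀, div_eq_one_iff_eq h0]
      have := valuation_pairs v hA (h a ha c hc hac) (h b hb s hs (Ne.symm hsb))
        (h a ha b hb hab) (h c hc s hs (Ne.symm hsc))
      rw [this, det_swap a b, neg_mul, Valuation.map_neg, mul_comm]

end normalize

/-! ## Computability -/

theorem factorial_primrec : Primrec Nat.factorial := by
  have h : Primrec (Nat.rec (motive := fun _ => ℕ) 1 fun n a => (n + 1) * a) := by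
    refine Primrec.nat_rec₁ (α := ℕ) 1 ?_
    exact Primrec.nat_mul.comp (Primrec.succ.comp Primrec.fst) Primrec.snd
  refine h.of_eq fun n => ?_
  induction n with
  | zero => rfl
  | succ n ih => rw [Nat.factorial_succ, ← ih]

/-! ## The main statement on branch points -/

theorem core (T : CurveTheory) :
    ∃ κ : ℕ × ℕ × ℕ × ℕ → ℕ, Computable κ ∧
    ∀ (K : IntermediateField ℚ QBar) [NumberField K] (N : ℕ) (X : T.Curve), N ≠ 0 →
      2 ≤ T.genus X → T.Good K N X → T.IsSpecial X →
      T.Bounded X (84 * T.genus X) (Module.finrank ℚ K * T.deg (T.genus X))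
        (2 * T.genus X + 3) (κ (Module.finrank ℚ K, (discr K).natAbs, N, T.genus X)) := by
  classical
  obtain ⟨Bd, hBd, hd⟩ := T.discriminant
  obtain ⟨Bu, hBu, hu⟩ := T.units
  obtain ⟨Bi, hBi, hi⟩ := T.integralPoints
  -- the functions
  let P : ℕ × ℕ × ℕ × ℕ → ℕ := fun q => q.2.2.1 * (84 * q.2.2.2).factorial
  have hP : Computable P := by
    refine Computable₂.comp (f := fun a b : ℕ => a * b) Primrec.nat_mul.to_comp ?_ ?_
    · exact Computable.fst.comp (Computable.snd.comp Computable.snd)
    · refine factorial_primrec.to_comp.comp ?_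
      refine Computable₂.comp (f := fun a b : ℕ => a * b) Primrec.nat_mul.to_comp
        (Computable.const 84) ?_
      exact Computable.snd.comp (Computable.snd.comp Computable.snd)
  let n : ℕ × ℕ × ℕ × ℕ → ℕ := fun q => q.1 * T.deg q.2.2.2
  have hn : Computable n := by
    refine Computable₂.comp (f := fun a b : ℕ => a * b) Primrec.nat_mul.to_comp
      Computable.fst ?_
    exact T.deg_computable.comp (Computable.snd.comp (Computable.snd.comp Computable.snd))
  let D : ℕ × ℕ × ℕ × ℕ → ℕ := fun q => Bd (n q, q.2.1 * P q)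
  have hD : Computable D := by
    refine hBd.comp (Computable.pair hn ?_)
    exact Computable₂.comp (f := fun a b : ℕ => a * b) Primrec.nat_mul.to_comp
      (Computable.fst.comp Computable.snd) hP
  let U : ℕ × ℕ × ℕ × ℕ → ℕ := fun q => Bu (n q, D q, P q)
  have hU : Computable U := hBu.comp (Computable.pair hn (Computable.pair hD hP))
  let I : ℕ × ℕ × ℕ × ℕ → ℕ := fun q => Bi (n q, D q, P q, U q)
  have hI : Computable I :=
    hBi.comp (Computable.pair hn (Computable.pair hD (Computable.pair hP hU)))
  refine ⟨fun q => U q + I q + 1, ?_, ?_⟩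
  · refine Computable.succ.comp ?_
    exact Computable₂.comp (f := fun a b : ℕ => a + b) Primrec.nat_add.to_comp hU hI
  intro K _ N X hN hg hX ⟨W, φ, hφ, hW⟩
  set q : ℕ × ℕ × ℕ × ℕ := (Module.finrank ℚ K, (discr K).natAbs, N, T.genus X) with hq
  have hPq : P q = N * (84 * T.genus X).factorial := rfl
  have hP0 : P q ≠ 0 := by
    rw [hPq]
    exact mul_ne_zero hN (Nat.factorial_ne_zero _)
  have hM0 : (discr K).natAbs * P q ≠ 0 :=
    mul_ne_zero (Int.natAbs_ne_zero.2 (discr_ne_zero K)) hP0
  have hκ : ((U q + I q + 1 : ℕ) : ℝ) = (U q : ℝ) + (I q : ℝ) + 1 := by push_cast; ring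
  have hU0 : (0 : ℝ) ≤ (U q : ℝ) := Nat.cast_nonneg _
  have hI0 : (0 : ℝ) ≤ (I q : ℝ) := Nat.cast_nonneg _
  rcases Nat.le_one_iff_eq_zero_or_eq_one.1 hW with hW | hW
  · obtain ⟨L, _, S, ⟨hKL, hdeg, hram⟩, h3, hcard, ⟨hS, hv⟩, hcov⟩ :=
      T.toGenusZero K N X hN hg hX ⟨W, φ, hφ, hW⟩
    have hdL : (discr L).natAbs ≤ D q := hd L (n q) _ hM0 hdeg hram
    obtain ⟨S', hS', hcov', hht⟩ := normalize T h3 hS hcov _ hv
    refine ⟨L, inferInstance, S', hdeg, by omega, fun x hx => ?_, hcov'⟩
    rw [hκ]
    rcases hht x hx with h | h | ⟨h, h'⟩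
    · rw [h, mulHeight₁_zero]
      linarith
    · rw [h, mulHeight₁_one]
      linarith
    · have := hu L (n q) (D q) (P q) x hP0 hdeg hdL h h'
      change mulHeight₁ x ≤ (U q : ℝ) at this
      linarith
  · obtain ⟨L, _, a, S, ⟨hKL, hdeg, hram⟩, hcard, ⟨ha, ha', hS⟩, hcov⟩ :=
      T.toGenusOne K N X hN hg hX ⟨W, φ, hφ, hW⟩
    have hdL : (discr L).natAbs ≤ D q := hd L (n q) _ hM0 hdeg hram
    have hau : mulHeight₁ a ≤ (U q : ℝ) := hu L (n q) (D q) (P q) a hP0 hdeg hdL ha ha'
    refine ⟨L, inferInstance, {none, some 0, some 1, some a} ∪ S.image some, hdeg, ?_,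
      fun x hx => ?_, ?_⟩
    · have h1 : (({none, some 0, some 1, some a} : Finset (Option L))).card ≤ 4 :=
        Finset.card_le_four
      have h2 : (S.image some).card ≤ S.card := Finset.card_image_le
      have h3 := Finset.card_union_le ({none, some 0, some 1, some a} : Finset (Option L))
        (S.image some)
      omega
    · rw [hκ]
      simp only [Finset.mem_union, Finset.mem_insert, reduceCtorEq, Option.some.injEq,
        Finset.mem_singleton, false_or, Finset.mem_image, exists_eq_right] at hx
      rcases hx with (h | h | h) | h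
      · rw [h, mulHeight₁_zero]
        linarith
      · rw [h, mulHeight₁_one]
        linarith
      · rw [h]
        linarith
      · have hl : LegendreAway (P q) a {x} := by
          refine ⟨ha, ha', fun y hy => ?_⟩
          rw [Finset.mem_singleton] at hy
          subst hy
          exact hS y h
        have := hi L (n q) (D q) (P q) (U q) a x hP0 hdeg hdL hl hau
        change mulHeight₁ x ≤ (I q : ℝ) at this
        linarith
    · refine T.cover_mono X _ _ _ ?_ (show 8 * T.genus X ≤ 84 * T.genus X by omega)
      rw [Finset.coe_union, Finset.coe_image]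
      simpa [legendrePoints] using hcov

end

end Run7.h457.ES
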