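import Mathlib

/-!
# Curves with a uniformly ramified morphism to a curve of genus at most one: definitions
-/

set_option autoImplicit false

namespace Run7.h457.ES

open NumberField IsDedekindDomain Height

noncomputable section

/-- The field of algebraic numbers. -/
abbrev QBar := AlgebraicClosure ℚ

section places

variable {L : IntermediateField ℚ QBar} [NumberField L]

/-- The finite place `v` of the number field `L` does not divide `M`. -/
def Away (M : ℕ) (v : HeightOneSpectrum (𝓞 L)) : Prop := (M : 𝓞 L) ∉ v.asIdeal

/-- `x` is a unit at all finite places which do not divide `M`. -/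
def UnitAway (M : ℕ) (x : L) : Prop :=
  ∀ v : HeightOneSpectrum (𝓞 L), Away M v → v.valuation L x = 1

/-- `x` is integral at all finite places which do not divide `M`. -/
def IntegralAway (M : ℕ) (x : L) : Prop :=
  ∀ v : HeightOneSpectrum (𝓞 L), Away M v → v.valuation L x ≤ 1

/-- The determinant of the matrix with the columns `x` and `y`. -/
def det₂ {R : Type} [CommRing R] (x y : Fin 2 → R) : R := x 0 * y 1 - x 1 * y 0

/-- The larger one of the absolute values of the coordinates of `x`. -/
def size (v : HeightOneSpectrum (𝓞 L)) (x : Fin 2 → L) : WithZero (Multiplicative ℤ) :=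
  max (v.valuation L (x 0)) (v.valuation L (x 1))

/-- The points of the projective line over `L` with homogeneous coordinates `x` and `y` are distinct
modulo `v`. -/
def Apart (v : HeightOneSpectrum (𝓞 L)) (x y : Fin 2 → L) : Prop :=
  v.valuation L (det₂ x y) = size v x * size v y

/-- The points of the projective line with homogeneous coordinates in `S` are distinct, and for all
finite places `v` which do not divide `M` they are distinct modulo `v` in other coordinates (given by
the matrix `A`). -/
def DistinctAway (M : ℕ) (S : Finset (Fin 2 → L)) : Prop :=
  (∀ x ∈ S, ∀ y ∈ S, x ≠ y → det₂ x y ≠ 0) ∧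
  ∀ v : HeightOneSpectrum (𝓞 L), Away M v → ∃ A : Matrix (Fin 2) (Fin 2) L, A.det ≠ 0 ∧
    ∀ x ∈ S, ∀ y ∈ S, x ≠ y → Apart v (A.mulVec x) (A.mulVec y)

/-- The elements `x` of `S` are coordinates of integral points `(x, y)` of the elliptic curve
`y ^ 2 = x (x - 1) (x - a)`, which has good reduction, at all finite places which do not divide
`M`. -/
def LegendreAway (M : ℕ) (a : L) (S : Finset L) : Prop :=
  UnitAway M a ∧ UnitAway M (1 - a) ∧
  ∀ x ∈ S, IntegralAway M x ∧ ∃ y, y ^ 2 = x * (x - 1) * (x - a)

/-- Homogeneous coordinates of the point `x` of `L` or of the point `none` at infinity, in `QBar`. -/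
def homog : Option L → Fin 2 → QBar
  | none => ![1, 0]
  | some x => ![(x : QBar), 1]

/-- The point of the projective line with homogeneous coordinates `x` in `L`, over `QBar`. -/
def toBar (x : Fin 2 → L) : Fin 2 → QBar := fun i => ((x i : L) : QBar)

/-- The points `∞`, `0`, `1`, `a` and the elements of `S`. -/
def legendrePoints (a : L) (S : Finset L) : Set (Option L) :=
  {none, some 0, some 1, some a} ∪ some '' (S : Set L)

end places

/-- The number field `L` is an extension of `K` of degree at most `d`, and it is ramified only at prime
numbers which divide the discriminant of `K` or `M`. -/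
def SmallExtension (K L : IntermediateField ℚ QBar) [NumberField K] [NumberField L] (d M : ℕ) :
    Prop :=
  K ≤ L ∧ Module.finrank ℚ L ≤ Module.finrank ℚ K * d ∧
  ∀ p : ℕ, p.Prime → p ∣ (discr L).natAbs → p ∣ (discr K).natAbs * M

/-- The morphism with the map `f` on points and the ramification indices `e` is uniformly ramified: the
ramification index at `P` depends only on `f P`. This holds for Galois morphisms, and for an étale
morphism followed by a Galois morphism. -/
def UniformlyRamified {P Q : Type} (f : P → Q) (e : P → ℕ) : Prop := ∀ x y, f x = f y → e x = e y

/-- The smooth projective connected curves over the field `QBar` of algebraic numbers. -/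
structure Curves where
  Curve : Type
  Point : Curve → Type
  genus : Curve → ℕ
  /-- The finite morphisms. -/
  Hom : Curve → Curve → Type
  app : ∀ {X W : Curve}, Hom X W → Point X → Point W
  /-- The ramification index of a finite morphism at a point. -/
  ram : ∀ {X W : Curve}, Hom X W → Point X → ℕ
  /-- `X` is the base change of a curve over the number field `K` with good reduction at all finite
  places of `K` which do not divide `N`. -/
  Good : (K : IntermediateField ℚ QBar) → [NumberField K] → ℕ → Curve → Prop
  /-- There is a finite morphism of degree at most `d` from `X` to the projective line, which is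
  étale outside the points with homogeneous coordinates in `S`. -/
  Cover : Curve → ℕ → Set (Fin 2 → QBar) → Prop

variable (T : Curves)

/-- There is a uniformly ramified morphism from `X` to a curve of genus `0` (of genus `1`). -/
def Curves.UniformTo (X : T.Curve) (g : ℕ) : Prop :=
  ∃ (W : T.Curve) (φ : T.Hom X W), UniformlyRamified (T.app φ) (T.ram φ) ∧ T.genus W = g

/-- The geometric facts for a uniformly ramified morphism `φ` from `X` to a curve of genus `0`. The
degree of `φ` is at most `84 (g - 1)`, and there are between `3` and `2 g + 2` branch points (Hurwitz).
As the function field of `X` has only finitely many subfields that are given by uniformly ramified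
morphisms, the morphism and its branch points are defined over a number field `L` that contains `K`, of
degree at most `deg g` over `K`. The Galois closure of `φ` is étale over `X`, with a group whose order
is a unit at the places which do not divide `M = N (84 g)!`; at these places it has good reduction,
all automorphisms of it are defined over an unramified extension (Deligne and Mumford), and its
quotient has good reduction, with an étale branch divisor (the fixed points of tame automorphisms
are étale). Hence `L` is unramified over `K` at these places `v`, and modulo `v` the branch points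
are distinct in a suitable model of the projective line. -/
def Curves.ToGenusZero (deg : ℕ → ℕ) : Prop :=
  ∀ (K : IntermediateField ℚ QBar) [NumberField K] (N : ℕ) (X : T.Curve), N ≠ 0 →
    2 ≤ T.genus X → T.Good K N X → T.UniformTo X 0 →
    ∃ (L : IntermediateField ℚ QBar) (_ : NumberField L) (S : Finset (Fin 2 → L)),
      SmallExtension K L (deg (T.genus X)) (N * (84 * T.genus X).factorial) ∧
      3 ≤ S.card ∧ S.card ≤ 2 * T.genus X + 2 ∧
      DistinctAway (N * (84 * T.genus X).factorial) S ∧
      T.Cover X (84 * T.genus X) (toBar '' (S : Set (Fin 2 → L)))

/-- The same for a uniformly ramified morphism to a curve `W` of genus `1`. There are between `1` and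
`2 g - 2` branch points, and the degree is at most `4 (g - 1)`. Choose one of them as origin, and `L`
such that `W` is given by the equation `y ^ 2 = x (x - 1) (x - a)`. This defines a smooth model at
the places `v` which do not divide `N (84 g)!`, hence `a` and `1 - a` are units at `v`, and `x` is
integral at `v` for the branch points `(x, y)` different from the origin. The composite with the
function `x` is ramified only over `∞`, `0`, `1`, `a` and these `x`. -/
def Curves.ToGenusOne (deg : ℕ → ℕ) : Prop :=
  ∀ (K : IntermediateField ℚ QBar) [NumberField K] (N : ℕ) (X : T.Curve), N ≠ 0 →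
    2 ≤ T.genus X → T.Good K N X → T.UniformTo X 1 →
    ∃ (L : IntermediateField ℚ QBar) (_ : NumberField L) (a : L) (S : Finset L),
      SmallExtension K L (deg (T.genus X)) (N * (84 * T.genus X).factorial) ∧
      S.card + 3 ≤ 2 * T.genus X ∧ LegendreAway (N * (84 * T.genus X).factorial) a S ∧
      T.Cover X (8 * T.genus X) (homog '' legendrePoints a S)

/-- Composition with an automorphism of the projective line. -/
def Curves.CoverMove : Prop :=
  ∀ (X : T.Curve) (d : ℕ) (S S' : Set (Fin 2 → QBar)) (A : Matrix (Fin 2) (Fin 2) QBar),
    T.Cover X d S → A.det ≠ 0 → (∀ x ∈ S, ∃ c : QBar, c ≠ 0 ∧ c • (A.mulVec x) ∈ S') →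
    T.Cover X d S'

/-- The discriminant of a number field is bounded by the function `B` of the degree and the ramified
primes. -/
def DiscriminantBound (B : ℕ × ℕ → ℕ) : Prop :=
  ∀ (L : IntermediateField ℚ QBar) [NumberField L] (n M : ℕ), M ≠ 0 →
    Module.finrank ℚ L ≤ n → (∀ p : ℕ, p.Prime → p ∣ (discr L).natAbs → p ∣ M) →
    (discr L).natAbs ≤ B (n, M)

/-- The heights of the solutions of the unit equation are bounded by the function `B`. -/
def UnitBound (B : ℕ × ℕ × ℕ → ℕ) : Prop :=
  ∀ (L : IntermediateField ℚ QBar) [NumberField L] (n D M : ℕ) (x : L), M ≠ 0 →
    Module.finrank ℚ L ≤ n → (discr L).natAbs ≤ D → UnitAway M x → UnitAway M (1 - x) →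
    mulHeight₁ x ≤ B (n, D, M)

/-- The heights of the integral points of Legendre curves are bounded by the function `B`. -/
def IntegralPointBound (B : ℕ × ℕ × ℕ × ℕ → ℕ) : Prop :=
  ∀ (L : IntermediateField ℚ QBar) [NumberField L] (n D M H : ℕ) (a x : L), M ≠ 0 →
    Module.finrank ℚ L ≤ n → (discr L).natAbs ≤ D → LegendreAway M a {x} → mulHeight₁ a ≤ H →
    mulHeight₁ x ≤ B (n, D, M, H)

/-- Known facts on curves. -/
structure CurveTheory extends Curves where
  cover_mono : ∀ X d d' S, Cover X d S → d ≤ d' → Cover X d' S
  cover_move : toCurves.CoverMove
  /-- A computable function of the genus. -/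
  deg : ℕ → ℕ
  deg_computable : Computable deg
  /-- See `Curves.ToGenusZero`. -/
  toGenusZero : toCurves.ToGenusZero deg
  /-- See `Curves.ToGenusOne`. -/
  toGenusOne : toCurves.ToGenusOne deg
  /-- The theorem of Dedekind and Hensel. -/
  discriminant : ∃ B, Computable B ∧ DiscriminantBound B
  /-- The effective theorem of Baker and Győry. -/
  units : ∃ B, Computable B ∧ UnitBound B
  /-- The effective theorem of Baker and Coates. -/
  integralPoints : ∃ B, Computable B ∧ IntegralPointBound B

/-- There is a uniformly ramified morphism from `X` to a curve of genus at most one. -/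
def Curves.IsSpecial (X : T.Curve) : Prop :=
  ∃ (W : T.Curve) (φ : T.Hom X W), UniformlyRamified (T.app φ) (T.ram φ) ∧ T.genus W ≤ 1

/-- `X` has a finite morphism of degree at most `d` to the projective line that is étale outside at
most `r` points, whose coordinates lie in a number field of degree at most `n` and have height at
most `H`. -/
def Curves.Bounded (X : T.Curve) (d n r H : ℕ) : Prop :=
  ∃ (L : IntermediateField ℚ QBar) (_ : NumberField L) (S : Finset (Option L)),
    Module.finrank ℚ L ≤ n ∧ S.card ≤ r ∧ (∀ x : L, some x ∈ S → mulHeight₁ x ≤ H) ∧
    T.Cover X d (homog '' (S : Set (Option L)))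

/-- The stable Faltings height, with the theorem of Javanpeykar (which uses the Belyi functions of
Khadjavi): it is bounded in terms of the genus of `X`, the degree of a finite morphism to the
projective line, and the degree, the number and the height of its branch points. -/
structure FaltingsHeight where
  /-- The stable Faltings height of the Jacobian of `X`. -/
  h : T.Curve → ℝ
  bound : ∃ B : ℕ × ℕ × ℕ × ℕ × ℕ → ℕ, Computable B ∧
    ∀ (X : T.Curve) (d n r H : ℕ), 2 ≤ T.genus X → T.Bounded X d n r H →
      h X ≤ B (T.genus X, d, n, r, H)

/-- The stable Arakelov heights of the points of curves, with the theorem of Javanpeykar for points of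
small height. -/
structure ArakelovHeight where
  /-- The stable Arakelov height of a point. -/
  h : ∀ X : T.Curve, T.Point X → ℝ
  bound : ∃ B : ℕ × ℕ × ℕ × ℕ × ℕ → ℕ, Computable B ∧
    ∀ (X : T.Curve) (d n r H : ℕ), 2 ≤ T.genus X → T.Bounded X d n r H →
      ∃ P, h X P ≤ B (T.genus X, d, n, r, H)

end

end Run7.h457.ES
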