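import Pool.Agent.Run7.h457.ES.Core

/-!
# Effective bounds for curves with a uniformly ramified morphism to a curve of genus at most one
-/

set_option autoImplicit false

namespace Run7.h457.ES

open NumberField IsDedekindDomain Height

noncomputable section

/-- A computable function of the data, from a computable function of the branch points. -/
theorem bound_computable (T : CurveTheory) {κ : ℕ × ℕ × ℕ × ℕ → ℕ} (hκ : Computable κ)
    {B : ℕ × ℕ × ℕ × ℕ × ℕ → ℕ} (hB : Computable B) :
    Computable fun q : ℕ × ℕ × ℕ × ℕ =>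
      B (q.2.2.2, 84 * q.2.2.2, q.1 * T.deg q.2.2.2, 2 * q.2.2.2 + 3, κ q) := by
  have hg : Computable fun q : ℕ × ℕ × ℕ × ℕ => q.2.2.2 :=
    Computable.snd.comp (Computable.snd.comp Computable.snd)
  have hm : Computable₂ fun a b : ℕ => a * b := Primrec.nat_mul.to_comp
  refine hB.comp (Computable.pair hg (Computable.pair ?_ (Computable.pair ?_
    (Computable.pair ?_ hκ))))
  · exact Computable₂.comp hm (Computable.const 84) hg
  · exact Computable₂.comp hm Computable.fst (T.deg_computable.comp hg)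
  · have h2 : Computable fun q : ℕ × ℕ × ℕ × ℕ => 2 * q.2.2.2 :=
      Computable₂.comp hm (Computable.const 2) hg
    exact Computable.succ.comp (Computable.succ.comp (Computable.succ.comp h2))

theorem faltings (T : CurveTheory) (F : FaltingsHeight T.toCurves) :
    ∃ c : ℕ × ℕ × ℕ × ℕ → ℕ, Computable c ∧
    ∀ (K : IntermediateField ℚ QBar) [NumberField K] (N : ℕ) (X : T.Curve), N ≠ 0 →
      2 ≤ T.genus X → T.Good K N X → T.IsSpecial X →
      F.h X ≤ c (Module.finrank ℚ K, (discr K).natAbs, N, T.genus X) := by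
  obtain ⟨κ, hκ, h⟩ := core T
  obtain ⟨B, hB, hb⟩ := F.bound
  refine ⟨_, bound_computable T hκ hB, ?_⟩
  intro K _ N X hN hg hX hs
  exact hb X _ _ _ _ hg (h K N X hN hg hX hs)

theorem arakelov (T : CurveTheory) (A : ArakelovHeight T.toCurves) :
    ∃ c : ℕ × ℕ × ℕ × ℕ → ℕ, Computable c ∧
    ∀ (K : IntermediateField ℚ QBar) [NumberField K] (N : ℕ) (X : T.Curve), N ≠ 0 →
      2 ≤ T.genus X → T.Good K N X → T.IsSpecial X →
      ∃ P, A.h X P ≤ c (Module.finrank ℚ K, (discr K).natAbs, N, T.genus X) := by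
  obtain ⟨κ, hκ, h⟩ := core T
  obtain ⟨B, hB, hb⟩ := A.bound
  refine ⟨_, bound_computable T hκ hB, ?_⟩
  intro K _ N X hN hg hX hs
  exact hb X _ _ _ _ hg (h K N X hN hg hX hs)

end

end Run7.h457.ES
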